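import Pool.Agent.helper62.RP.Spec

set_option autoImplicit false

open Polynomial Filter
open Pool.Agent.QU

namespace Pool.Agent.RP

section REP

variable {V : Type} [NormedAddCommGroup V] [InnerProductSpace ℂ V] {G : Type} [Group G]

/-- the representation as a homomorphism to the operators -/
noncomputable def REP_hom (ρ : G →* (V ≃ₗᵢ[ℂ] V)) : G →* (V →L[ℂ] V) where
  toFun γ := (ρ γ).toLinearIsometry.toContinuousLinearMap
  map_one' := by
    ext v
    rw [map_one]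
    rfl
  map_mul' γ δ := by
    ext v
    rw [map_mul]
    rfl

/-- `rep` as a homomorphism of algebras -/
noncomputable def REP_rep (ρ : G →* (V ≃ₗᵢ[ℂ] V)) : MonoidAlgebra ℂ G →ₐ[ℂ] (V →L[ℂ] V) :=
  MonoidAlgebra.lift ℂ (V →L[ℂ] V) G (REP_hom ρ)

theorem REP_rep_eq (ρ : G →* (V ≃ₗᵢ[ℂ] V)) (a : MonoidAlgebra ℂ G) : rep ρ a = REP_rep ρ a := by
  unfold REP_rep
  rw [MonoidAlgebra.lift_apply]
  rfl

theorem REP_rep_apply (ρ : G →* (V ≃ₗᵢ[ℂ] V)) (a : MonoidAlgebra ℂ G) (v : V) :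
    rep ρ a v = ∑ γ ∈ a.coeff.support, a.coeff γ • ρ γ v := by
  unfold rep
  rw [_root_.sum_apply]
  rfl

theorem REP_rep_adj (ρ : G →* (V ≃ₗᵢ[ℂ] V)) (a b : MonoidAlgebra ℂ G)
    (h : ∀ γ, a.coeff γ = star (b.coeff γ⁻¹)) (v w : V) :
    inner ℂ v (rep ρ a w) = inner ℂ (rep ρ b v) w := by
  rw [REP_rep_apply, REP_rep_apply, inner_sum, sum_inner]
  apply Finset.sum_nbij' (fun γ => γ⁻¹) (fun γ => γ⁻¹)
  · intro γ hγ
    rw [Finsupp.mem_support_iff] at hγ ⊢
    intro h0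
    apply hγ
    rw [h γ, h0, star_zero]
  · intro γ hγ
    rw [Finsupp.mem_support_iff] at hγ ⊢
    intro h0
    apply hγ
    rw [h γ⁻¹, inv_inv] at h0
    exact star_eq_zero.mp h0
  · intro γ _; exact inv_inv γ
  · intro γ _; exact inv_inv γ
  · intro γ _
    rw [inner_smul_right, inner_smul_left, h γ]
    have h1 : inner ℂ v (ρ γ w) = inner ℂ (ρ γ⁻¹ v) w := by
      have h2 : v = ρ γ (ρ γ⁻¹ v) := by
        have h3 : ρ γ * ρ γ⁻¹ = 1 := by rw [← map_mul, mul_inv_cancel, map_one]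
        have h4 := congrArg (fun f : V ≃ₗᵢ[ℂ] V => f v) h3
        exact h4.symm
      conv_lhs => rw [h2]
      exact LinearIsometryEquiv.inner_map_map (ρ γ) _ _
    rw [h1]
    rfl

theorem REP_adj_coeff (a : MonoidAlgebra ℂ G) (γ : G) : a.coeff γ = star ((adj a).coeff γ⁻¹) := by
  classical
  unfold adj
  rw [MonoidAlgebra.coeff_sum, Finsupp.finsetSum_apply]
  simp only [MonoidAlgebra.coeff_single, Finsupp.single_apply, inv_inj]
  rw [Finset.sum_ite_eq']
  split_ifs with h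
  · rw [star_star]
  · rw [star_zero]
    exact Finsupp.notMem_support_iff.1 h

end REP

theorem REP : REP_stmt := by
  intro G _ V _ _ ρ a b v w
  have hadj : ∀ v w : V, inner ℂ (rep ρ (adj a) v) w = inner ℂ v (rep ρ a w) := fun v w =>
    (REP_rep_adj ρ a (adj a) (REP_adj_coeff a) v w).symm
  have hmul : ∀ (a b : MonoidAlgebra ℂ G) (v : V), rep ρ (a * b) v = rep ρ a (rep ρ b v) := by
    intro a b v
    rw [REP_rep_eq, REP_rep_eq, REP_rep_eq, map_mul]
    rfl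
  refine ⟨hmul a b v, ?_, ?_, ?_, ?_, hadj v w, ?_⟩
  · rw [REP_rep_eq, REP_rep_eq, REP_rep_eq, map_add]
  · intro z
    rw [REP_rep_eq, REP_rep_eq, map_smul]
  · rw [REP_rep_eq, map_one]
    rfl
  · rw [REP_rep_apply, Finset.sum_mul]
    refine (norm_sum_le _ _).trans (Finset.sum_le_sum fun γ _ => ?_)
    rw [norm_smul, LinearIsometryEquiv.norm_map]
  · have h1 : (‖rep ρ a v‖ : ℝ) ^ 2 = RCLike.re (inner ℂ (rep ρ (adj a * a) v) v) := by
      rw [hmul, hadj, inner_self_eq_norm_sq]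
    rw [h1]
    exact re_inner_le_norm _ _

end Pool.Agent.RP
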