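import Pool.Agent.helper62.RP.Spec

set_option autoImplicit false

open Polynomial Filter
open Pool.Agent.QU

namespace Pool.Agent.RP

theorem KIV_card {ι α β : Type} [Fintype ι] [DecidableEq α] [DecidableEq β] (s : Finset ι)
    (f : ι → α) (g : ι → β) (h : ∀ i ∈ s, ∀ j ∈ s, f i = f j ↔ g i = g j) :
    (s.image f).card = (s.image g).card := by
  classical
  refine Finset.card_bij' (fun a ha => g (Finset.mem_image.1 ha).choose)
    (fun b hb => f (Finset.mem_image.1 hb).choose) ?_ ?_ ?_ ?_
  · intro a ha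
    exact Finset.mem_image_of_mem g (Finset.mem_image.1 ha).choose_spec.1
  · intro b hb
    exact Finset.mem_image_of_mem f (Finset.mem_image.1 hb).choose_spec.1
  · intro a ha
    have h1 := (Finset.mem_image.1 ha).choose_spec
    have hb : g (Finset.mem_image.1 ha).choose ∈ s.image g := Finset.mem_image_of_mem g h1.1
    have h2 := (Finset.mem_image.1 hb).choose_spec
    have h3 := (h _ h2.1 _ h1.1).2 h2.2
    exact h3.trans h1.2
  · intro b hb
    have h1 := (Finset.mem_image.1 hb).choose_spec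
    have ha : f (Finset.mem_image.1 hb).choose ∈ s.image f := Finset.mem_image_of_mem f h1.1
    have h2 := (Finset.mem_image.1 ha).choose_spec
    have h3 := (h _ h2.1 _ h1.1).1 h2.2
    exact h3.trans h1.2

theorem KIV_pr {n : ℕ} [NeZero n] {β γ : Type} [DecidableEq β] [DecidableEq γ]
    (w : Fin n → Ltr) (t : Fin n → β) (c : Fin n → γ) (h : ∀ i j, t i = t j ↔ c i = c j) (i j : Fin n) :
    (pr w t i).1 = (pr w c i).1 ∧
    ((pr w t i).2.1 = (pr w t j).2.1 ↔ (pr w c i).2.1 = (pr w c j).2.1) ∧
    ((pr w t i).2.2 = (pr w t j).2.2 ↔ (pr w c i).2.2 = (pr w c j).2.2) := by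
  unfold pr
  by_cases h1 : (w i).2 = true <;> by_cases h2 : (w j).2 = true <;> simp [h1, h2, h]

theorem KIV : KIV_stmt := by
  intro n _ β γ _ _ w t c h
  have h1 : ∀ i, (pr w t i).1 = (pr w c i).1 := fun i => (KIV_pr w t c h i i).1
  have h2 : ∀ i j, ((pr w t i).2.1 = (pr w t j).2.1 ↔ (pr w c i).2.1 = (pr w c j).2.1) :=
    fun i j => (KIV_pr w t c h i j).2.1
  have h3 : ∀ i j, ((pr w t i).2.2 = (pr w t j).2.2 ↔ (pr w c i).2.2 = (pr w c j).2.2) :=
    fun i j => (KIV_pr w t c h i j).2.2
  have h4 : ∀ i j, (pr w t i = pr w t j ↔ pr w c i = pr w c j) := by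
    intro i j
    rw [Prod.ext_iff, Prod.ext_iff, Prod.ext_iff, Prod.ext_iff, h1, h1, h2 i j, h3 i j]
  refine ⟨?_, ?_, ?_⟩
  · unfold Con
    refine forall_congr' fun i => forall_congr' fun j => ?_
    rw [h1 i, h1 j, h2 i j, h3 i j]
  · intro x
    unfold nex edg
    have e1 : ((Finset.univ.image (pr w t)).filter (fun e => e.1 = x))
        = (Finset.univ.filter (fun i => (pr w c i).1 = x)).image (pr w t) := by
      rw [Finset.filter_image]
      congr 1
      refine Finset.filter_congr fun i _ => ?_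
      rw [h1 i]
    have e2 : ((Finset.univ.image (pr w c)).filter (fun e => e.1 = x))
        = (Finset.univ.filter (fun i => (pr w c i).1 = x)).image (pr w c) := by
      rw [Finset.filter_image]
    rw [e1, e2]
    exact KIV_card _ _ _ fun i _ j _ => h4 i j
  · unfold nv
    exact KIV_card _ _ _ fun i _ j _ => h i j

end Pool.Agent.RP
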