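import Pool.Agent.helper62.RP.Spec

set_option autoImplicit false

open Polynomial Filter
open Pool.Agent.QU

namespace Pool.Agent.RP

theorem TST_eq (h : ℝ[X]) (ρ : ℝ) (n : ℕ) (hn : h.natDegree < n) :
    maj h ρ = ∑ i ∈ Finset.range n, |h.coeff i| * ρ ^ i := by
  unfold maj
  refine Finset.sum_subset ?_ ?_
  · intro i hi
    rw [Finset.mem_range] at hi ⊢
    omega
  · intro i _ hi
    rw [Finset.mem_range, not_lt] at hi
    rw [coeff_eq_zero_of_natDegree_lt (by omega), abs_zero, zero_mul]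

theorem TST_nonneg (h : ℝ[X]) (ρ : ℝ) (hρ : 0 ≤ ρ) : 0 ≤ maj h ρ :=
  Finset.sum_nonneg fun i _ => by positivity

theorem TST_add (p q : ℝ[X]) (ρ : ℝ) (hρ : 0 ≤ ρ) : maj (p + q) ρ ≤ maj p ρ + maj q ρ := by
  set n := max p.natDegree q.natDegree + 1 with hn
  have h1 := le_max_left p.natDegree q.natDegree
  have h2 := le_max_right p.natDegree q.natDegree
  have h3 : (p + q).natDegree < n := lt_of_le_of_lt (natDegree_add_le p q) (by omega)
  rw [TST_eq (p + q) ρ n h3, TST_eq p ρ n (by omega), TST_eq q ρ n (by omega), ← Finset.sum_add_distrib]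
  refine Finset.sum_le_sum fun i _ => ?_
  rw [coeff_add, ← add_mul]
  exact mul_le_mul_of_nonneg_right (abs_add_le _ _) (by positivity)

theorem TST_sum (s : Finset ℕ) (f : ℕ → ℝ[X]) (ρ : ℝ) (hρ : 0 ≤ ρ) :
    maj (∑ i ∈ s, f i) ρ ≤ ∑ i ∈ s, maj (f i) ρ := by
  classical
  induction s using Finset.induction_on with
  | empty => simp [maj]
  | insert a s ha ih =>
    rw [Finset.sum_insert ha, Finset.sum_insert ha]
    exact (TST_add _ _ ρ hρ).trans (add_le_add le_rfl ih)

theorem TST_mono_mul (c : ℝ) (j : ℕ) (q : ℝ[X]) (ρ : ℝ) :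
    maj (C c * (X ^ j * q)) ρ = |c| * ρ ^ j * maj q ρ := by
  have hdeg : (C c * (X ^ j * q)).natDegree < j + (q.natDegree + 1) := by
    have h1 : (C c * (X ^ j * q)).natDegree ≤ (X ^ j * q).natDegree := natDegree_C_mul_le c _
    have h2 : (X ^ j * q).natDegree ≤ j + q.natDegree := by
      refine natDegree_mul_le.trans ?_
      rw [natDegree_X_pow]
    omega
  rw [TST_eq _ ρ _ hdeg, Finset.sum_range_add]
  have h0 : ∑ i ∈ Finset.range j, |(C c * (X ^ j * q)).coeff i| * ρ ^ i = 0 := by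
    refine Finset.sum_eq_zero fun i hi => ?_
    rw [Finset.mem_range] at hi
    rw [coeff_C_mul, coeff_X_pow_mul', if_neg (by omega), mul_zero, abs_zero, zero_mul]
  rw [h0, zero_add, maj, Finset.mul_sum]
  refine Finset.sum_congr rfl fun i _ => ?_
  rw [coeff_C_mul, coeff_X_pow_mul', if_pos (by omega), Nat.add_sub_cancel_left, abs_mul, pow_add]
  ring

theorem TST_mul (p q : ℝ[X]) (ρ : ℝ) (hρ : 0 ≤ ρ) : maj (p * q) ρ ≤ maj p ρ * maj q ρ := by
  have h1 : p * q = ∑ i ∈ Finset.range (p.natDegree + 1), C (p.coeff i) * (X ^ i * q) := by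
    conv_lhs => rw [as_sum_range_C_mul_X_pow p]
    rw [Finset.sum_mul]
    refine Finset.sum_congr rfl fun i _ => ?_
    ring
  rw [h1]
  refine (TST_sum _ _ ρ hρ).trans (le_of_eq ?_)
  rw [maj, Finset.sum_mul]
  refine Finset.sum_congr rfl fun i _ => ?_
  rw [TST_mono_mul]

theorem TST_one (ρ : ℝ) : maj 1 ρ = 1 := by
  simp [maj]

theorem TST_pow (p : ℝ[X]) (ρ : ℝ) (hρ : 0 ≤ ρ) (n : ℕ) : maj (p ^ n) ρ ≤ maj p ρ ^ n := by
  induction n with
  | zero => rw [pow_zero, pow_zero, TST_one]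
  | succ n ih =>
    rw [pow_succ, pow_succ]
    exact (TST_mul _ _ ρ hρ).trans (mul_le_mul_of_nonneg_right ih (TST_nonneg p ρ hρ))

theorem TST_T (c : ℝ) (M : ℕ) (ρ y : ℝ) (hρ : 0 ≤ ρ) (hy : |c| * ρ ^ M = y) (R : ℕ) :
    maj ((1 - C c * X ^ M) ^ R) ρ ≤ (1 + y) ^ R ∧
    maj (1 - (1 - C c * X ^ M) ^ R) ρ ≤ (1 + y) ^ R - 1 := by
  have hy0 : 0 ≤ y := by rw [← hy]; positivity
  have hm : ∀ p : ℝ[X], maj (p * (C c * X ^ M)) ρ = y * maj p ρ := by
    intro p
    rw [show p * (C c * X ^ M) = C c * (X ^ M * p) by ring, TST_mono_mul, hy]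
  have hm' : ∀ p : ℝ[X], maj (p * (C (-c) * X ^ M)) ρ = y * maj p ρ := by
    intro p
    rw [show p * (C (-c) * X ^ M) = C (-c) * (X ^ M * p) by ring, TST_mono_mul, abs_neg, hy]
  have h1 : maj ((1 - C c * X ^ M) ^ R) ρ ≤ (1 + y) ^ R := by
    induction R with
    | zero => rw [pow_zero, pow_zero, TST_one]
    | succ R ih =>
      have e : (1 - C c * X ^ M : ℝ[X]) ^ (R + 1)
          = (1 - C c * X ^ M) ^ R + (1 - C c * X ^ M) ^ R * (C (-c) * X ^ M) := by
        rw [pow_succ, C_neg]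
        ring
      rw [e]
      refine (TST_add _ _ ρ hρ).trans ?_
      rw [hm', pow_succ]
      nlinarith
  refine ⟨h1, ?_⟩
  clear h1
  induction R with
  | zero => simp [maj]
  | succ R ih =>
    have h1 : maj ((1 - C c * X ^ M) ^ R) ρ ≤ (1 + y) ^ R := by
      clear ih
      induction R with
      | zero => rw [pow_zero, pow_zero, TST_one]
      | succ R ih =>
        have e : (1 - C c * X ^ M : ℝ[X]) ^ (R + 1)
            = (1 - C c * X ^ M) ^ R + (1 - C c * X ^ M) ^ R * (C (-c) * X ^ M) := by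
          rw [pow_succ, C_neg]
          ring
        rw [e]
        refine (TST_add _ _ ρ hρ).trans ?_
        rw [hm', pow_succ]
        nlinarith
    have e : (1 - (1 - C c * X ^ M) ^ (R + 1) : ℝ[X])
        = (1 - (1 - C c * X ^ M) ^ R) + (1 - C c * X ^ M) ^ R * (C c * X ^ M) := by
      rw [pow_succ]
      ring
    rw [e]
    refine (TST_add _ _ ρ hρ).trans ?_
    rw [hm, pow_succ]
    nlinarith

theorem TST : TST_stmt := by
  intro ρ r K hρ hρr hrK
  have hr : 0 < r := lt_of_le_of_lt hρ hρr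
  have hK : 0 < K := lt_of_lt_of_le hr hrK
  have hρr1 : ρ / r < 1 := by rwa [div_lt_one hr]
  have hρr0 : 0 ≤ ρ / r := by positivity
  obtain ⟨n, hn⟩ := exists_pow_lt_of_lt_one (show (0 : ℝ) < 1 / 512 by norm_num) hρr1
  set M : ℕ := 2 * (n + 1) with hM
  have hMe : Even M := ⟨n + 1, by omega⟩
  have hM512 : (ρ / r) ^ M ≤ 1 / 512 :=
    (pow_le_pow_of_le_one hρr0 hρr1.le (by omega)).trans hn.le
  set y₀ : ℝ := (r / K) ^ M with hy₀
  have hy₀0 : 0 < y₀ := by positivity
  have hy₀1 : y₀ ≤ 1 := pow_le_one₀ (by positivity) ((div_le_one hK).2 hrK)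
  set R : ℕ := ⌈1 / y₀⌉₊ with hR
  have hR1 : 1 / y₀ ≤ R := Nat.le_ceil _
  have hR2 : (R : ℝ) ≤ 2 / y₀ := by
    have h1 := Nat.ceil_lt_add_one (show 0 ≤ 1 / y₀ by positivity)
    have h2 : 1 ≤ 1 / y₀ := by rw [le_div_iff₀ hy₀0]; linarith
    have h3 : 2 / y₀ = 1 / y₀ + 1 / y₀ := by ring
    rw [h3]
    linarith
  have hRy : 1 ≤ R * y₀ := by rwa [div_le_iff₀ hy₀0] at hR1
  have hR0 : 1 ≤ R := by
    rcases Nat.eq_zero_or_pos R with h | h
    · rw [h, Nat.cast_zero, zero_mul] at hRy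
      linarith
    · exact h
  set c : ℝ := (1 / K) ^ M with hc
  have hc0 : 0 < c := by positivity
  set y₁ : ℝ := (ρ / K) ^ M with hy₁
  have hy₁0 : 0 ≤ y₁ := by positivity
  have hcy₁ : |c| * ρ ^ M = y₁ := by
    rw [abs_of_pos hc0, hc, hy₁, ← mul_pow]
    congr 1
    ring
  have hRy₁ : R * y₁ ≤ 1 / 256 := by
    have h1 : y₁ = (ρ / r) ^ M * y₀ := by
      rw [hy₁, hy₀, ← mul_pow]
      congr 1
      field_simp
    rw [h1]
    calc (R : ℝ) * ((ρ / r) ^ M * y₀) ≤ (2 / y₀) * ((1 / 512) * y₀) :=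
          mul_le_mul hR2 (mul_le_mul_of_nonneg_right hM512 hy₀0.le) (by positivity) (by positivity)
      _ = 1 / 256 := by field_simp; norm_num
  set T : ℝ[X] := 1 - (1 - C c * X ^ M) ^ R with hT
  have hTev : ∀ x : ℝ, T.eval x = 1 - (1 - (x / K) ^ M) ^ R := by
    intro x
    rw [hT]
    simp only [eval_sub, eval_one, eval_pow, eval_mul, eval_C, eval_X]
    rw [hc, ← mul_pow, show 1 / K * x = x / K by ring]
  have hmajT : maj T ρ ≤ 1 / 128 := by
    refine (TST_T c M ρ y₁ hρ hcy₁ R).2.trans ?_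
    have h1 : (1 + y₁) ^ R ≤ Real.exp (1 / 256) := by
      calc (1 + y₁) ^ R ≤ (Real.exp y₁) ^ R := by
            apply pow_le_pow_left₀ (by linarith)
            have := Real.add_one_le_exp y₁
            linarith
        _ = Real.exp (R * y₁) := by rw [← Real.exp_nat_mul]
        _ ≤ Real.exp (1 / 256) := Real.exp_le_exp.2 hRy₁
    have h2 : Real.exp (1 / 256) ≤ 256 / 255 := by
      have h3 := Real.add_one_le_exp (-(1 / 256) : ℝ)
      have h4 : Real.exp (-(1 / 256) : ℝ) * Real.exp (1 / 256) = 1 := by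
        rw [← Real.exp_add]
        norm_num
      have h5 := Real.exp_pos (1 / 256 : ℝ)
      nlinarith
    linarith
  refine ⟨M * R, Nat.mul_pos (by omega) hR0, ?_⟩
  intro s hs
  refine ⟨(C 2 * T) ^ s, ?_, ?_, ?_, ?_, ?_⟩
  · have h1 : (1 - C c * X ^ M : ℝ[X]).natDegree ≤ M := by
      refine (natDegree_sub_le _ _).trans (max_le ?_ ?_)
      · rw [natDegree_one]; omega
      · exact natDegree_C_mul_X_pow_le c M
    have h2 : T.natDegree ≤ M * R := by
      refine (natDegree_sub_le _ _).trans (max_le ?_ ?_)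
      · rw [natDegree_one]; omega
      · refine natDegree_pow_le.trans ?_
        rw [mul_comm]
        exact Nat.mul_le_mul_right R h1
    refine natDegree_pow_le.trans ?_
    rw [mul_comm]
    exact Nat.mul_le_mul_right s ((natDegree_C_mul_le 2 T).trans h2)
  · rw [eval_pow, eval_mul, hTev, zero_div, zero_pow (by omega), sub_zero, one_pow, sub_self, mul_zero,
      zero_pow (by omega)]
  · intro x hx
    rw [eval_pow, eval_mul, eval_C, hTev]
    have h0 : 0 ≤ (x / K) ^ M := hMe.pow_nonneg _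
    have h1 : (x / K) ^ M ≤ 1 := by
      rw [← hMe.pow_abs]
      apply pow_le_one₀ (abs_nonneg _)
      rw [abs_div, abs_of_pos hK]
      exact (div_le_one hK).2 hx
    have h2 : 0 ≤ (1 - (x / K) ^ M) ^ R := pow_nonneg (by linarith) _
    have h3 : (1 - (x / K) ^ M) ^ R ≤ 1 := pow_le_one₀ (by linarith) (by linarith)
    constructor
    · exact pow_nonneg (by linarith) _
    · exact pow_le_pow_left₀ (by linarith) (by linarith) _
  · intro x hx1 hx2
    rw [eval_pow, eval_mul, eval_C, hTev]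
    have h1 : (x / K) ^ M ≤ 1 := by
      rw [← hMe.pow_abs]
      apply pow_le_one₀ (abs_nonneg _)
      rw [abs_div, abs_of_pos hK]
      exact (div_le_one hK).2 hx2
    have h2 : y₀ ≤ (x / K) ^ M := by
      rw [← hMe.pow_abs (x / K), abs_div, abs_of_pos hK, hy₀]
      exact pow_le_pow_left₀ (by positivity) (div_le_div_of_nonneg_right hx1 hK.le) _
    have h3 : (1 - (x / K) ^ M) ^ R ≤ 1 / 2 := by
      calc (1 - (x / K) ^ M) ^ R ≤ (1 - y₀) ^ R := pow_le_pow_left₀ (by linarith) (by linarith) _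
        _ ≤ (Real.exp (-y₀)) ^ R := by
            apply pow_le_pow_left₀ (by linarith)
            have := Real.add_one_le_exp (-y₀)
            linarith
        _ = Real.exp (R * (-y₀)) := by rw [← Real.exp_nat_mul]
        _ ≤ Real.exp (-1) := Real.exp_le_exp.2 (by linarith)
        _ ≤ 1 / 2 := by
            have h5 := Real.add_one_le_exp (1 : ℝ)
            rw [Real.exp_neg]
            rw [inv_le_comm₀ (Real.exp_pos _) (by norm_num)]
            linarith
    exact one_le_pow₀ (by linarith)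
  · refine (TST_pow _ ρ hρ s).trans ?_
    apply pow_le_pow_left₀ (TST_nonneg _ ρ hρ)
    refine (TST_mul _ _ ρ hρ).trans ?_
    have h1 : maj (C 2 : ℝ[X]) ρ = 2 := by simp [maj]
    rw [h1]
    linarith

end Pool.Agent.RP
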